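import Pool.Agent.X247.CR.Time

/-!
# MP_3f5cd8_lc, Q1: deciding `cr(G) ≤ k` is fixed-parameter tractable

Instances are pairs `(M, k)` of a 0/1 matrix `M` (given by its rows), which codes the graph
`graphOf M` with vertex set `Fin M.length`, and a number `k`; the parameter is `k`. The machine
model is the Turing machine model of `FptDefs`.
-/

namespace Pool.Agent.Results.MP_3f5cd8_lc.CrFpt

open Pool.Agent.NPC Pool.Agent.H633R2 Pool.Agent.X247.CR

/-- Deciding whether the colour-reversal number of a graph is at most `k` is fixed-parameter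
tractable with respect to `k`. -/
theorem result :
    IsFpt (fun x : List (List Bool) × ℕ => x.2) (fun x => cr (graphOf x.1) ≤ (x.2 : ℕ∞)) :=
  ⟨dec, Pool.Agent.NPC.X247.CR.fptTime_dec, dec_iff⟩

end Pool.Agent.Results.MP_3f5cd8_lc.CrFpt
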